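import Pool.Agent.H41.AL.Defs

/-!
# Column sums (statement `S_STEPC` of project AL)
-/

set_option autoImplicit false

namespace Pool.Agent.H722.AL.StepC

open Equiv Pool.Agent.H41.AL

/-- exponentials of small numbers with sum zero -/
theorem exp_sum {L : ℕ} (Δ : Fin L → ℝ) (lam A : ℝ) (hΔ : ∑ k, Δ k = 0)
    (hb : ∀ k, |Δ k| ≤ A) (hA : 1 ≤ A) (hlam : |lam| * (5 * A ^ 2) ≤ 1) :
    ∑ k, Real.exp (lam * Δ k) ≤ L * Real.exp (25 * lam ^ 2 * A ^ 4) := by
  have hA2 : 1 ≤ A ^ 2 := one_le_pow₀ hA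
  have hlA : |lam| * A ≤ 1 := by
    refine le_trans ?_ hlam
    apply mul_le_mul_of_nonneg_left _ (abs_nonneg _)
    nlinarith
  have h1 : ∀ k, Real.exp (lam * Δ k) ≤ 1 + lam * Δ k + lam ^ 2 * A ^ 2 := by
    intro k
    have h2 : |lam * Δ k| ≤ |lam| * A := by
      rw [abs_mul]
      exact mul_le_mul_of_nonneg_left (hb k) (abs_nonneg _)
    have h3 := Real.abs_exp_sub_one_sub_id_le (h2.trans hlA)
    have h4 := (abs_le.mp h3).2
    have h5 : (lam * Δ k) ^ 2 ≤ lam ^ 2 * A ^ 2 := by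
      rw [mul_pow]
      apply mul_le_mul_of_nonneg_left _ (sq_nonneg _)
      rw [← sq_abs]
      exact pow_le_pow_left₀ (abs_nonneg _) (hb k) 2
    linarith
  have h6 : 1 + lam ^ 2 * A ^ 2 ≤ Real.exp (25 * lam ^ 2 * A ^ 4) := by
    have h7 := Real.add_one_le_exp (25 * lam ^ 2 * A ^ 4)
    have h8 : lam ^ 2 * A ^ 2 ≤ 25 * lam ^ 2 * A ^ 4 := by
      have h9 : A ^ 2 ≤ 25 * A ^ 4 := by nlinarith
      nlinarith [sq_nonneg lam, mul_le_mul_of_nonneg_left h9 (sq_nonneg lam)]
    linarith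
  calc ∑ k, Real.exp (lam * Δ k) ≤ ∑ k : Fin L, (1 + lam * Δ k + lam ^ 2 * A ^ 2) :=
        Finset.sum_le_sum fun k _ => h1 k
    _ = L * (1 + lam ^ 2 * A ^ 2) := by
        rw [Finset.sum_add_distrib, Finset.sum_add_distrib, ← Finset.mul_sum, hΔ, Finset.sum_const,
          Finset.sum_const, Finset.card_univ, Fintype.card_fin, nsmul_eq_mul, nsmul_eq_mul]
        ring
    _ ≤ L * Real.exp (25 * lam ^ 2 * A ^ 4) :=
        mul_le_mul_of_nonneg_left h6 (Nat.cast_nonneg _)

/-- one entry of the new weights -/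
theorem upd_eq {n L : ℕ} (M : Fin L → Perm (Fin n)) (k : Fin L) (g : Perm (Fin n)) (W : Mx n)
    (hL : 3 ≤ L) (hD : Disj M) (j c : Fin n) :
    upd M k g W j c = W j c - (if j = (M k).symm (g c) then W j c else 0) +
      (1 / ((L : ℝ) - 1)) *
        ∑ k' ∈ Finset.univ.erase k, (if j = (M k').symm (g c) then W j c else 0) := by
  have hL1 : (L : ℝ) - 1 ≠ 0 := by
    have : (3 : ℝ) ≤ L := by exact_mod_cast hL
    intro h
    linarith
  have hJ : ∀ k', M k' j = g c ↔ j = (M k').symm (g c) := fun k' =>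
    (Equiv.eq_symm_apply (M k')).symm
  unfold upd
  by_cases h1 : M k j = g c
  · rw [if_pos h1, if_pos ((hJ k).mp h1), Finset.sum_eq_zero]
    · ring
    · intro k' hk'
      rw [if_neg]
      intro h2
      exact hD k' k (Finset.ne_of_mem_erase hk') j (((hJ k').mpr h2).trans h1.symm)
  · rw [if_neg h1, if_neg fun h2 => h1 ((hJ k).mpr h2)]
    by_cases h2 : ∃ k', M k' j = g c
    · rw [if_pos h2]
      obtain ⟨k0, hk0⟩ := h2
      have hne : k0 ≠ k := by
        intro h3
        rw [h3] at hk0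
        exact h1 hk0
      rw [Finset.sum_eq_single_of_mem k0 (Finset.mem_erase.mpr ⟨hne, Finset.mem_univ _⟩),
        if_pos ((hJ k0).mp hk0)]
      · field_simp
        ring
      · intro k' _ hk'
        rw [if_neg]
        intro h3
        exact hD k' k0 hk' j (((hJ k').mpr h3).trans hk0.symm)
    · rw [if_neg h2, Finset.sum_eq_zero]
      · ring
      · intro k' _
        rw [if_neg]
        intro h3
        exact h2 ⟨k', (hJ k').mpr h3⟩

/-- the new column sum -/
theorem colS_upd {n L : ℕ} (M : Fin L → Perm (Fin n)) (k : Fin L) (g : Perm (Fin n)) (W : Mx n)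
    (hL : 3 ≤ L) (hD : Disj M) (c : Fin n) :
    colS (upd M k g W) c = colS W c +
      (-(W ((M k).symm (g c)) c) + ((∑ k', W ((M k').symm (g c)) c) - W ((M k).symm (g c)) c) /
        ((L : ℝ) - 1)) := by
  have h1 : ∀ k', ∑ j, (if j = (M k').symm (g c) then W j c else 0) =
      W ((M k').symm (g c)) c := by
    intro k'
    rw [Finset.sum_ite_eq' Finset.univ ((M k').symm (g c)) (fun j => W j c),
      if_pos (Finset.mem_univ _)]
  unfold colS
  rw [Finset.sum_congr rfl fun j _ => upd_eq M k g W hL hD j c, Finset.sum_add_distrib,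
    Finset.sum_sub_distrib, h1 k, ← Finset.mul_sum, Finset.sum_comm,
    Finset.sum_congr rfl fun k' _ => h1 k', Finset.sum_erase_eq_sub (Finset.mem_univ k)]
  ring

theorem stepc : S_STEPC := by
  intro n L M g W A lam c hL hD hW hA hlam
  obtain ⟨x, hx⟩ : ∃ x : Fin L → ℝ, x = fun k => W ((M k).symm (g c)) c := ⟨_, rfl⟩
  obtain ⟨S, hS⟩ : ∃ S : ℝ, S = ∑ k, x k := ⟨_, rfl⟩
  obtain ⟨Δ, hΔ⟩ : ∃ Δ : Fin L → ℝ, Δ = fun k => -(x k) + (S - x k) / ((L : ℝ) - 1) := ⟨_, rfl⟩
  have hL3 : (3 : ℝ) ≤ L := by exact_mod_cast hL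
  have hL1 : (0 : ℝ) < (L : ℝ) - 1 := by linarith
  have hx0 : ∀ k, 0 ≤ x k := by
    intro k
    rw [hx]
    exact (hW _ _).1
  have hxA : ∀ k, x k ≤ A := by
    intro k
    rw [hx]
    exact (hW _ _).2
  have hcol : ∀ k, colS (upd M k g W) c = colS W c + Δ k := by
    intro k
    rw [colS_upd M k g W hL hD c, hΔ, hS, hx]
  have hsum : ∑ k, Δ k = 0 := by
    rw [hΔ, Finset.sum_add_distrib, Finset.sum_neg_distrib, ← Finset.sum_div,
      Finset.sum_sub_distrib, ← hS, Finset.sum_const, Finset.card_univ, Fintype.card_fin,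
      nsmul_eq_mul]
    field_simp
    ring
  have hbd : ∀ k, |Δ k| ≤ A := by
    intro k
    have h1 : 0 ≤ S - x k := by
      rw [hS]
      have := Finset.single_le_sum (fun i _ => hx0 i) (Finset.mem_univ k)
      linarith
    have h2 : S - x k ≤ ((L : ℝ) - 1) * A := by
      have h3 : ∑ k' ∈ Finset.univ.erase k, x k' ≤ ∑ k' ∈ Finset.univ.erase k, A :=
        Finset.sum_le_sum fun k' _ => hxA k'
      rw [Finset.sum_erase_eq_sub (Finset.mem_univ k), ← hS, Finset.sum_const,
        Finset.card_erase_of_mem (Finset.mem_univ k), Finset.card_univ, Fintype.card_fin,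
        nsmul_eq_mul, Nat.cast_sub (by omega), Nat.cast_one] at h3
      exact h3
    have h4 : 0 ≤ (S - x k) / ((L : ℝ) - 1) := div_nonneg h1 hL1.le
    have h5 : (S - x k) / ((L : ℝ) - 1) ≤ A := by
      rw [div_le_iff₀ hL1]
      linarith
    have h6 := hx0 k
    have h7 := hxA k
    rw [hΔ, abs_le]
    constructor
    · change -A ≤ -(x k) + (S - x k) / ((L : ℝ) - 1)
      linarith
    · change -(x k) + (S - x k) / ((L : ℝ) - 1) ≤ A
      linarith
  have hexp := exp_sum Δ lam A hsum hbd hA hlam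
  calc ∑ k, Real.exp (lam * (colS (upd M k g W) c - n))
      = ∑ k, Real.exp (lam * Δ k) * Real.exp (lam * (colS W c - n)) := by
        refine Finset.sum_congr rfl fun k _ => ?_
        rw [hcol k, ← Real.exp_add]
        congr 1
        ring
    _ = (∑ k, Real.exp (lam * Δ k)) * Real.exp (lam * (colS W c - n)) := by
        rw [Finset.sum_mul]
    _ ≤ (L * Real.exp (25 * lam ^ 2 * A ^ 4)) * Real.exp (lam * (colS W c - n)) :=
        mul_le_mul_of_nonneg_right hexp (Real.exp_pos _).le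
    _ = L * (Real.exp (25 * lam ^ 2 * A ^ 4) * Real.exp (lam * (colS W c - n))) := by ring

end Pool.Agent.H722.AL.StepC
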